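import Pool.Agent.R249.Bi.Kernel

/-! Fourier coefficients on the circle and their decay. -/

set_option autoImplicit false

open MeasureTheory Set Filter Topology Complex Metric

namespace Pool.Agent.R249.Bi

/-- the `n`-th Fourier coefficient of the restriction of `g` to the unit circle -/
noncomputable def cf (g : ℂ → ℂ) (n : ℤ) : ℂ := Real.circleAverage (fun ξ => g ξ * ξ ^ (-n)) 0 1

lemma norm_avg_le {g : ℂ → ℂ} {R B : ℝ} (h : ∀ θ : ℝ, ‖g (circleMap 0 R θ)‖ ≤ B) :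
    ‖Real.circleAverage g 0 R‖ ≤ B := by
  rw [Real.circleAverage_def, norm_smul]
  have hpi := Real.pi_pos
  have h1 : ‖∫ θ in (0 : ℝ)..(2 * Real.pi), g (circleMap 0 R θ)‖ ≤ B * |2 * Real.pi - 0| :=
    intervalIntegral.norm_integral_le_of_norm_le_const fun θ _ => h θ
  rw [sub_zero, abs_of_pos (by positivity)] at h1
  have h2 : ‖(2 * Real.pi)⁻¹‖ = (2 * Real.pi)⁻¹ := by
    rw [Real.norm_of_nonneg (by positivity)]
  rw [h2]
  calc (2 * Real.pi)⁻¹ * ‖∫ θ in (0 : ℝ)..(2 * Real.pi), g (circleMap 0 R θ)‖ ≤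
      (2 * Real.pi)⁻¹ * (B * (2 * Real.pi)) := by gcongr
    _ = B := by field_simp

lemma avg_shift {g : ℂ → ℂ} {r R : ℝ} (h0 : 0 < r) (hle : r ≤ R)
    (hc : ContinuousOn g (closedBall 0 R \ ball 0 r))
    (hd : ∀ z ∈ ball (0 : ℂ) R \ closedBall 0 r, DifferentiableAt ℂ g z) :
    Real.circleAverage g 0 R = Real.circleAverage g 0 r := by
  rw [Real.circleAverage_eq_circleIntegral (h0.trans_le hle).ne',
    Real.circleAverage_eq_circleIntegral h0.ne']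
  congr 1
  exact Complex.circleIntegral_sub_center_inv_smul_eq_of_differentiable_on_annulus_off_countable
    h0 hle (s := ∅) countable_empty hc (by simpa using hd)

lemma cf_le {g : ℂ → ℂ} {s B : ℝ} (hs : 1 < s)
    (hd : ∀ ξ : ℂ, s⁻¹ ≤ ‖ξ‖ → ‖ξ‖ ≤ s → DifferentiableAt ℂ g ξ)
    (hB : ∀ ξ : ℂ, s⁻¹ ≤ ‖ξ‖ → ‖ξ‖ ≤ s → ‖g ξ‖ ≤ B) (n : ℤ) :
    ‖cf g n‖ ≤ B * (s⁻¹) ^ n.natAbs := by
  have hs0 : 0 < s := by linarith
  have hsi : 0 < s⁻¹ := by positivity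
  have hs1 : s⁻¹ < 1 := inv_lt_one_of_one_lt₀ hs
  have hd' : ∀ ξ : ℂ, s⁻¹ ≤ ‖ξ‖ → ‖ξ‖ ≤ s → DifferentiableAt ℂ (fun ξ => g ξ * ξ ^ (-n)) ξ := by
    intro ξ h1 h2
    refine (hd ξ h1 h2).mul ?_
    refine DifferentiableAt.zpow differentiableAt_id (Or.inl ?_)
    intro h3
    change ξ = 0 at h3
    rw [h3, norm_zero] at h1
    linarith
  have key : ∀ (r R : ℝ), s⁻¹ ≤ r → r ≤ R → R ≤ s →
      Real.circleAverage (fun ξ => g ξ * ξ ^ (-n)) 0 R =
        Real.circleAverage (fun ξ => g ξ * ξ ^ (-n)) 0 r := by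
    intro r R h1 h2 h3
    refine avg_shift (hsi.trans_le h1) h2 ?_ ?_
    · intro z hz
      refine (hd' z ?_ ?_).continuousAt.continuousWithinAt
      · have := hz.2
        rw [mem_ball_zero_iff, not_lt] at this
        linarith
      · have := hz.1
        rw [mem_closedBall_zero_iff] at this
        linarith
    · intro z hz
      refine hd' z ?_ ?_
      · have := hz.2
        rw [mem_closedBall_zero_iff, not_le] at this
        linarith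
      · have := hz.1
        rw [mem_ball_zero_iff] at this
        linarith
  unfold cf
  rcases le_or_gt 0 n with hn | hn
  · rw [← key 1 s hs1.le hs.le le_rfl]
    refine norm_avg_le fun θ => ?_
    have hnorm := circleMap_norm s θ hs0.le
    rw [norm_mul, norm_zpow, hnorm]
    have e : s ^ (-n) = (s⁻¹) ^ n.natAbs := by
      obtain ⟨m, rfl⟩ := Int.eq_ofNat_of_zero_le hn
      simp
    rw [e]
    gcongr
    exact hB _ (by rw [hnorm]; linarith) (by rw [hnorm])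
  · rw [key s⁻¹ 1 le_rfl hs1.le hs.le]
    refine norm_avg_le fun θ => ?_
    have hnorm := circleMap_norm s⁻¹ θ hsi.le
    rw [norm_mul, norm_zpow, hnorm]
    have e : (s⁻¹) ^ (-n) = (s⁻¹) ^ n.natAbs := by
      rw [← zpow_natCast]
      congr 1
      omega
    rw [e]
    gcongr
    exact hB _ (by rw [hnorm]) (by rw [hnorm]; linarith)

/-- the holomorphic extension of `P z` -/
noncomputable def Pext (z ξ : ℂ) : ℂ :=
  (1 - (‖z‖ : ℂ) ^ 2) * ξ / ((ξ - z) * (1 - (starRingEnd ℂ) z * ξ))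

/-- the holomorphic extension of `P1 z` -/
noncomputable def Gext (z ξ : ℂ) : ℂ :=
  Pext z ξ * ((Real.log (1 - ‖z‖ ^ 2) : ℝ) - Complex.log (1 - z / ξ) -
    Complex.log (1 - (starRingEnd ℂ) z * ξ))

lemma Pext_eq {z ξ : ℂ} (hz : ‖z‖ < 1) (hξ : ‖ξ‖ = 1) : Pext z ξ = (P z ξ : ℂ) := by
  have h1 := sub_ne hz hξ
  have h2 := one_sub_ne hz hξ.le
  have h3 : ξ * (starRingEnd ℂ) ξ = 1 := by
    rw [Complex.mul_conj, Complex.normSq_eq_norm_sq, hξ]
    norm_num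
  have h4 : ((‖ξ - z‖ : ℂ)) ^ 2 = (ξ - z) * (starRingEnd ℂ) (ξ - z) := by
    rw [Complex.mul_conj, Complex.normSq_eq_norm_sq]
    push_cast
    rfl
  have h5 : (1 - (starRingEnd ℂ) z * ξ) = ξ * (starRingEnd ℂ) (ξ - z) := by
    rw [map_sub, mul_sub, h3]
    ring
  have hξ0 : ξ ≠ 0 := by
    intro h
    rw [h, norm_zero] at hξ
    norm_num at hξ
  have h6 : (starRingEnd ℂ) (ξ - z) ≠ 0 := (map_ne_zero _).mpr h1
  unfold Pext P
  push_cast
  rw [h4, h5]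
  field_simp

lemma mem_slit1 {z ξ : ℂ} (h : ‖z‖ < ‖ξ‖) : 1 - z / ξ ∈ slitPlane := by
  apply re_lt_one
  rw [norm_div, div_lt_one ((norm_nonneg z).trans_lt h)]
  exact h

lemma mem_slit2 {z ξ : ℂ} (h : ‖z‖ * ‖ξ‖ < 1) : 1 - (starRingEnd ℂ) z * ξ ∈ slitPlane := by
  apply re_lt_one
  rwa [norm_mul, Complex.norm_conj]

lemma Gext_eq {z ξ : ℂ} (hz : ‖z‖ < 1) (hξ : ‖ξ‖ = 1) : Gext z ξ = (P1 z ξ : ℂ) := by
  have h1 := sub_ne hz hξ
  have hξ0 : ξ ≠ 0 := by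
    intro h
    rw [h, norm_zero] at hξ
    norm_num at hξ
  have hpos := one_sub_pos hz
  have hne := norm_pos_iff.mpr h1
  have h3 : ξ * (starRingEnd ℂ) ξ = 1 := by
    rw [Complex.mul_conj, Complex.normSq_eq_norm_sq, hξ]
    norm_num
  have h4 : (1 - (starRingEnd ℂ) z * ξ) = (starRingEnd ℂ) (1 - z / ξ) := by
    rw [map_sub, map_one, map_div₀]
    have : (starRingEnd ℂ) ξ ≠ 0 := (map_ne_zero _).mpr hξ0
    have e : (starRingEnd ℂ) z * ξ = (starRingEnd ℂ) z / (starRingEnd ℂ) ξ := by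
      rw [eq_div_iff this, mul_assoc, h3, mul_one]
    rw [e]
  have h5 : Complex.log (1 - z / ξ) + Complex.log (1 - (starRingEnd ℂ) z * ξ) =
      ((2 * Real.log ‖ξ - z‖ : ℝ) : ℂ) := by
    rw [h4, Complex.log_conj _ (slitPlane_arg_ne_pi (mem_slit1 (by rw [hξ]; exact hz))),
      Complex.add_conj, Complex.log_re]
    have : ‖1 - z / ξ‖ = ‖ξ - z‖ := by
      have e : 1 - z / ξ = (ξ - z) / ξ := by field_simp
      rw [e, norm_div, hξ, div_one]
    rw [this]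
  have h6 : Real.log (P z ξ) = Real.log (1 - ‖z‖ ^ 2) - 2 * Real.log ‖ξ - z‖ := by
    unfold P
    rw [Real.log_div hpos.ne' (by positivity), Real.log_pow]
    norm_num
  unfold Gext P1
  rw [Pext_eq hz hξ, sub_sub, h5, h6]
  push_cast
  ring

lemma ne_zero_of_slit {z : ℂ} (h : z ∈ slitPlane) : z ≠ 0 := slitPlane_ne_zero h

lemma contAt_Pext {z ξ : ℂ} (h1 : ‖z‖ < ‖ξ‖) (h2 : ‖z‖ * ‖ξ‖ < 1) :
    ContinuousAt (fun p : ℂ × ℂ => Pext p.1 p.2) (z, ξ) := by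
  unfold Pext
  refine ContinuousAt.div ?_ ?_ ?_
  · exact (by fun_prop : Continuous fun p : ℂ × ℂ => (1 - (‖p.1‖ : ℂ) ^ 2) * p.2).continuousAt
  · refine Continuous.continuousAt ?_
    exact (continuous_snd.sub continuous_fst).mul
      (continuous_const.sub ((Complex.continuous_conj.comp continuous_fst).mul continuous_snd))
  · refine mul_ne_zero ?_ (ne_zero_of_slit (mem_slit2 h2))
    intro h
    simp only at h
    rw [sub_eq_zero] at h
    rw [h] at h1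
    exact lt_irrefl _ h1

lemma contAt_Gext {z ξ : ℂ} (h1 : ‖z‖ < ‖ξ‖) (h2 : ‖z‖ * ‖ξ‖ < 1) (h3 : ‖z‖ < 1) :
    ContinuousAt (fun p : ℂ × ℂ => Gext p.1 p.2) (z, ξ) := by
  unfold Gext
  have hξ : ξ ≠ 0 := by
    intro h
    rw [h, norm_zero] at h1
    exact absurd h1 (not_lt.mpr (norm_nonneg _))
  refine (contAt_Pext h1 h2).mul ?_
  refine ((?_ : ContinuousAt _ _).sub ?_).sub ?_
  · refine Complex.continuous_ofReal.continuousAt.comp ?_
    refine ContinuousAt.log ?_ (one_sub_pos h3).ne'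
    exact (by fun_prop : Continuous fun p : ℂ × ℂ => (1 - ‖p.1‖ ^ 2)).continuousAt
  · refine ContinuousAt.clog ?_ (mem_slit1 h1)
    exact continuousAt_const.sub (continuousAt_fst.div continuousAt_snd hξ)
  · refine ContinuousAt.clog ?_ (mem_slit2 h2)
    exact (continuous_const.sub
      ((Complex.continuous_conj.comp continuous_fst).mul continuous_snd)).continuousAt

lemma diff_Pext {z ξ : ℂ} (h1 : ‖z‖ < ‖ξ‖) (h2 : ‖z‖ * ‖ξ‖ < 1) :
    DifferentiableAt ℂ (Pext z) ξ := by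
  unfold Pext
  refine DifferentiableAt.div (by fun_prop) (by fun_prop) ?_
  refine mul_ne_zero ?_ (ne_zero_of_slit (mem_slit2 h2))
  intro h
  rw [sub_eq_zero] at h
  rw [h] at h1
  exact lt_irrefl _ h1

lemma diff_Gext {z ξ : ℂ} (h1 : ‖z‖ < ‖ξ‖) (h2 : ‖z‖ * ‖ξ‖ < 1) :
    DifferentiableAt ℂ (Gext z) ξ := by
  unfold Gext
  have hξ : ξ ≠ 0 := by
    intro h
    rw [h, norm_zero] at h1
    exact absurd h1 (not_lt.mpr (norm_nonneg _))
  refine (diff_Pext h1 h2).mul ?_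
  refine ((differentiableAt_const _).sub ?_).sub ?_
  · exact DifferentiableAt.clog
      ((differentiableAt_const _).sub ((differentiableAt_const _).div differentiableAt_id hξ))
      (mem_slit1 h1)
  · exact DifferentiableAt.clog (by fun_prop) (mem_slit2 h2)

lemma isCompact_ann (r s : ℝ) : IsCompact (closedBall (0 : ℂ) r ×ˢ
    {ξ : ℂ | s⁻¹ ≤ ‖ξ‖ ∧ ‖ξ‖ ≤ s}) := by
  refine (isCompact_closedBall _ _).prod ?_
  refine Metric.isCompact_of_isClosed_isBounded ?_ ?_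
  · exact (isClosed_le continuous_const continuous_norm).inter
      (isClosed_le continuous_norm continuous_const)
  · refine (isBounded_closedBall (x := (0 : ℂ)) (r := s)).subset ?_
    intro ξ hξ
    simpa using hξ.2

lemma cf_congr {g g' : ℂ → ℂ} (h : ∀ ξ : ℂ, ‖ξ‖ = 1 → g ξ = g' ξ) (n : ℤ) : cf g n = cf g' n := by
  unfold cf
  refine Real.circleAverage_congr_sphere fun ξ hξ => ?_
  rw [h ξ (sphere_norm hξ)]

/-- uniform exponential decay of the coefficients of `P1 z` -/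
lemma cf_P1_le {r s : ℝ} (hr0 : 0 ≤ r) (hs : 1 < s) (hrs : r * s < 1) :
    ∃ B : ℝ, ∀ z : ℂ, ‖z‖ ≤ r → ∀ n : ℤ,
      ‖cf (fun ξ => (P1 z ξ : ℂ)) n‖ ≤ B * (s⁻¹) ^ n.natAbs ∧
      ‖cf (fun ξ => (P z ξ : ℂ)) n‖ ≤ B * (s⁻¹) ^ n.natAbs := by
  have hs0 : 0 < s := by linarith
  have hs1 : s⁻¹ < 1 := inv_lt_one_of_one_lt₀ hs
  have hr1 : r < 1 := by nlinarith
  have hin : ∀ z ξ : ℂ, ‖z‖ ≤ r → s⁻¹ ≤ ‖ξ‖ → ‖ξ‖ ≤ s → ‖z‖ < ‖ξ‖ ∧ ‖z‖ * ‖ξ‖ < 1 := by
    intro z ξ h1 h2 h3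
    constructor
    · refine lt_of_le_of_lt h1 (lt_of_lt_of_le ?_ h2)
      rw [← one_div, lt_div_iff₀ hs0]
      exact hrs
    · calc ‖z‖ * ‖ξ‖ ≤ r * s := mul_le_mul h1 h3 (norm_nonneg _) hr0
        _ < 1 := hrs
  have hcG : ContinuousOn (fun p : ℂ × ℂ => Gext p.1 p.2) (closedBall (0 : ℂ) r ×ˢ
      {ξ : ℂ | s⁻¹ ≤ ‖ξ‖ ∧ ‖ξ‖ ≤ s}) := by
    rintro ⟨z, ξ⟩ ⟨h1, h2⟩
    simp only [mem_closedBall_zero_iff] at h1
    obtain ⟨h3, h4⟩ := hin z ξ h1 h2.1 h2.2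
    exact (contAt_Gext h3 h4 (lt_of_le_of_lt h1 hr1)).continuousWithinAt
  have hcP : ContinuousOn (fun p : ℂ × ℂ => Pext p.1 p.2) (closedBall (0 : ℂ) r ×ˢ
      {ξ : ℂ | s⁻¹ ≤ ‖ξ‖ ∧ ‖ξ‖ ≤ s}) := by
    rintro ⟨z, ξ⟩ ⟨h1, h2⟩
    simp only [mem_closedBall_zero_iff] at h1
    obtain ⟨h3, h4⟩ := hin z ξ h1 h2.1 h2.2
    exact (contAt_Pext h3 h4).continuousWithinAt
  obtain ⟨B1, hB1⟩ := (isCompact_ann r s).exists_bound_of_continuousOn hcG
  obtain ⟨B2, hB2⟩ := (isCompact_ann r s).exists_bound_of_continuousOn hcP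
  refine ⟨max B1 B2, fun z hz n => ⟨?_, ?_⟩⟩
  · rw [cf_congr (g' := Gext z) (fun ξ hξ => (Gext_eq (lt_of_le_of_lt hz hr1) hξ).symm)]
    refine cf_le hs ?_ ?_ n
    · intro ξ h1 h2
      obtain ⟨h3, h4⟩ := hin z ξ hz h1 h2
      exact diff_Gext h3 h4
    · intro ξ h1 h2
      exact (hB1 (z, ξ) ⟨by simpa using hz, h1, h2⟩).trans (le_max_left _ _)
  · rw [cf_congr (g' := Pext z) (fun ξ hξ => (Pext_eq (lt_of_le_of_lt hz hr1) hξ).symm)]
    refine cf_le hs ?_ ?_ n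
    · intro ξ h1 h2
      obtain ⟨h3, h4⟩ := hin z ξ hz h1 h2
      exact diff_Pext h3 h4
    · intro ξ h1 h2
      exact (hB2 (z, ξ) ⟨by simpa using hz, h1, h2⟩).trans (le_max_right _ _)

end Pool.Agent.R249.Bi
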