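import Pool.Agent.R249.Bi.Mean

/-! Bounded harmonic function ⇒ bounded density. -/

set_option autoImplicit false

open MeasureTheory Set Filter Topology Complex Metric AddCircle
open scoped ENNReal InnerProductSpace

namespace Pool.Agent.R249.Bi

instance fact2pi : Fact (0 < 2 * Real.pi) := ⟨Real.two_pi_pos⟩

/-- the torus -/
abbrev Tor := AddCircle (2 * Real.pi)

lemma cm_pow (z : ℂ) (hz : ‖z‖ < 1) (m : ℕ) : cf (fun ξ => (P z ξ : ℂ)) (-(m : ℤ)) = z ^ m := by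
  unfold cf
  rw [← poisson_formula (g := fun ζ => ζ ^ m) (w := z)
    (by exact (differentiable_pow (𝕜 := ℂ) m).diffContOnCl) hz]
  simp

lemma conj_avg (g : ℂ → ℂ) : (starRingEnd ℂ) (Real.circleAverage g 0 1) =
    Real.circleAverage (fun ξ => (starRingEnd ℂ) (g ξ)) 0 1 := by
  rw [Real.circleAverage_def, Real.circleAverage_def, Complex.real_smul, Complex.real_smul,
    map_mul, Complex.conj_ofReal]
  congr 1
  rw [intervalIntegral.intervalIntegral_eq_integral_uIoc,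
    intervalIntegral.intervalIntegral_eq_integral_uIoc, if_pos (by positivity), one_smul, one_smul,
    ← integral_conj]

lemma cf_P (z : ℂ) (hz : ‖z‖ < 1) (m : ℕ) :
    cf (fun ξ => (P z ξ : ℂ)) (m : ℤ) = (starRingEnd ℂ) z ^ m := by
  have h := congrArg (starRingEnd ℂ) (cm_pow z hz m)
  rw [map_pow] at h
  rw [← h]
  unfold cf
  rw [conj_avg]
  refine Real.circleAverage_congr_sphere fun ξ hξ => ?_
  have hξ1 := sphere_norm hξ
  simp only [map_mul, Complex.conj_ofReal, neg_neg, map_zpow₀]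
  congr 1
  have h3 : ξ⁻¹ = (starRingEnd ℂ) ξ := by
    rw [Complex.inv_def, Complex.normSq_eq_norm_sq, hξ1]
    simp
  rw [← h3, inv_zpow]
  simp

lemma cf_P_polar {r : ℝ} (h0 : 0 ≤ r) (h1 : r < 1) (α : ℝ) (n : ℤ) :
    cf (fun ξ => (P (circleMap 0 r α) ξ : ℂ)) n = (r : ℂ) ^ n.natAbs * (circleMap 0 1 α) ^ (-n) := by
  have hz : ‖circleMap 0 r α‖ < 1 := by rwa [circleMap_norm _ _ h0]
  have e : circleMap 0 r α = r * circleMap 0 1 α := by simp [circleMap]
  have hu : ‖circleMap 0 1 α‖ = 1 := circleMap_norm 1 α zero_le_one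
  have h3 : (starRingEnd ℂ) (circleMap 0 1 α) = (circleMap 0 1 α)⁻¹ := by
    rw [Complex.inv_def, Complex.normSq_eq_norm_sq, hu]
    simp
  rcases Int.eq_nat_or_neg n with ⟨m, rfl | rfl⟩
  · rw [cf_P _ hz, e, map_mul, Complex.conj_ofReal, mul_pow, h3]
    simp
  · rw [cm_pow _ hz, e, mul_pow]
    simp

lemma hT_polar (ν : ℤ → ℂ) {r : ℝ} (h0 : 0 ≤ r) (h1 : r < 1) (α : ℝ) :
    hT ν (circleMap 0 r α) = ∑' n : ℤ, ((r : ℂ) ^ n.natAbs * ν n) * (circleMap 0 1 α) ^ n := by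
  unfold hT pair
  rw [← (Equiv.neg ℤ).tsum_eq]
  refine tsum_congr fun n => ?_
  rw [Equiv.neg_apply, cf_P_polar h0 h1, neg_neg, Int.natAbs_neg]
  ring

lemma fourier_eq (n : ℤ) (α : ℝ) : (fourier n (α : Tor) : ℂ) = (circleMap 0 1 α) ^ n := by
  rw [fourier_coe_apply, circleMap, zero_add, ofReal_one, one_mul, ← Complex.exp_int_mul]
  congr 1
  have : (Real.pi : ℂ) ≠ 0 := by exact_mod_cast Real.pi_ne_zero
  push_cast
  field_simp

/-- the dilated coefficients -/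
noncomputable def co (ν : ℤ → ℂ) (r : ℝ) (n : ℤ) : ℂ := (r : ℂ) ^ n.natAbs * ν n

lemma summable_co {ν : ℤ → ℂ} (hν : Growth ν) {r : ℝ} (h0 : 0 ≤ r) (h1 : r < 1) :
    Summable fun n => ‖co ν r n‖ := by
  obtain ⟨s, hs1, hrs⟩ : ∃ s : ℝ, 1 < s ∧ r * s < 1 := by
    rcases h0.eq_or_lt with h | h
    · exact ⟨2, by norm_num, by rw [← h]; norm_num⟩
    · refine ⟨(1 + 1 / r) / 2, ?_, ?_⟩
      · have : 1 < 1 / r := by rw [lt_div_iff₀ h]; linarith
        linarith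
      · have : r * ((1 + 1 / r) / 2) = (r + 1) / 2 := by field_simp
        rw [this]
        linarith
  obtain ⟨C, hC⟩ := hν s hs1
  refine Summable.of_nonneg_of_le (fun n => norm_nonneg _) (fun n => ?_)
    ((summable_natAbs (q := r * s) (by positivity) hrs).mul_left C)
  unfold co
  rw [norm_mul, norm_pow, Complex.norm_real, Real.norm_of_nonneg h0, mul_pow]
  calc r ^ n.natAbs * ‖ν n‖ ≤ r ^ n.natAbs * (C * s ^ n.natAbs) := by
        gcongr
        exact hC n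
    _ = _ := by ring

/-- the dilated harmonic function on the torus -/
noncomputable def HH (ν : ℤ → ℂ) (r : ℝ) : C(Tor, ℂ) := ∑' n : ℤ, co ν r n • fourier n

lemma hasSum_HH {ν : ℤ → ℂ} (hν : Growth ν) {r : ℝ} (h0 : 0 ≤ r) (h1 : r < 1) :
    HasSum (fun n : ℤ => co ν r n • (fourier n : C(Tor, ℂ))) (HH ν r) := by
  refine Summable.hasSum (Summable.of_norm ?_)
  simp_rw [norm_smul, fourier_norm, mul_one]
  exact summable_co hν h0 h1

lemma HH_apply {ν : ℤ → ℂ} (hν : Growth ν) {r : ℝ} (h0 : 0 ≤ r) (h1 : r < 1) (α : ℝ) :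
    HH ν r (α : Tor) = hT ν (circleMap 0 r α) := by
  have h := (ContinuousMap.evalCLM ℂ (α : Tor)).hasSum (hasSum_HH hν h0 h1)
  rw [hT_polar ν h0 h1]
  have h2 := h.tsum_eq
  rw [ContinuousMap.evalCLM_apply] at h2
  rw [← h2]
  refine tsum_congr fun n => ?_
  simp only [ContinuousMap.evalCLM_apply, ContinuousMap.smul_apply, smul_eq_mul]
  rw [fourier_eq]
  rfl

/-- the same function in `L²` -/
noncomputable def HL (ν : ℤ → ℂ) (r : ℝ) : Lp ℂ 2 (haarAddCircle (T := 2 * Real.pi)) :=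
  ContinuousMap.toLp (E := ℂ) 2 haarAddCircle ℂ (HH ν r)

lemma HL_ae (ν : ℤ → ℂ) (r : ℝ) : (HL ν r : Tor → ℂ) =ᵐ[haarAddCircle] HH ν r :=
  ContinuousMap.coeFn_toLp _ _

lemma repr_HL {ν : ℤ → ℂ} (hν : Growth ν) {r : ℝ} (h0 : 0 ≤ r) (h1 : r < 1) (n : ℤ) :
    (fourierBasis (T := 2 * Real.pi)).repr (HL ν r) n = co ν r n := by
  have h := (ContinuousMap.toLp (E := ℂ) 2 (haarAddCircle (T := 2 * Real.pi)) ℂ).hasSum
    (hasSum_HH hν h0 h1)
  have h2 : HasSum (fun n : ℤ => co ν r n • fourierBasis (T := 2 * Real.pi) n) (HL ν r) := by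
    have e : (fun m : ℤ => co ν r m • fourierBasis (T := 2 * Real.pi) m) = fun m : ℤ =>
        ContinuousMap.toLp (E := ℂ) 2 (haarAddCircle (T := 2 * Real.pi)) ℂ
          (co ν r m • fourier m) := by
      funext m
      rw [map_smul, coe_fourierBasis]
    rw [e]
    exact h
  have h3 := h2.mapL (innerSL ℂ (fourierBasis (T := 2 * Real.pi) n))
  rw [HilbertBasis.repr_apply_apply]
  have h4 : HasSum (fun m : ℤ => innerSL ℂ (fourierBasis (T := 2 * Real.pi) n)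
      (co ν r m • fourierBasis (T := 2 * Real.pi) m)) (co ν r n) := by
    have h5 : co ν r n = innerSL ℂ (fourierBasis (T := 2 * Real.pi) n)
      (co ν r n • fourierBasis (T := 2 * Real.pi) n) := by
      rw [innerSL_apply_apply, inner_smul_right,
        inner_self_eq_norm_sq_to_K, (fourierBasis (T := 2 * Real.pi)).orthonormal.1 n]
      simp
    have h6 := hasSum_single (f := fun m : ℤ => innerSL ℂ (fourierBasis (T := 2 * Real.pi) n)
      (co ν r m • fourierBasis (T := 2 * Real.pi) m)) n (fun m hm => by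
        rw [innerSL_apply_apply, inner_smul_right]
        have := (fourierBasis (T := 2 * Real.pi)).orthonormal.2 (i := n) (j := m) hm.symm
        rw [this, mul_zero])
    convert h6 using 1
  exact h3.unique h4

lemma norm_HL_le {ν : ℤ → ℂ} (hν : Growth ν) {r C : ℝ} (h0 : 0 ≤ r) (h1 : r < 1) (hC : 0 ≤ C)
    (hb : ∀ z : ℂ, ‖z‖ < 1 → ‖hT ν z‖ ≤ C) :
    (∀ x : Tor, ‖HH ν r x‖ ≤ C) ∧ ‖HL ν r‖ ≤ C := by
  have h : ∀ x : Tor, ‖HH ν r x‖ ≤ C := by
    intro x
    induction x using QuotientAddGroup.induction_on with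
    | H α =>
      have := HH_apply hν h0 h1 α
      change ‖HH ν r (α : Tor)‖ ≤ C
      rw [this]
      exact hb _ (by rwa [circleMap_norm _ _ h0])
  refine ⟨h, ?_⟩
  have h2 := Lp.norm_le_of_ae_bound (f := HL ν r) hC (by
    filter_upwards [HL_ae ν r] with x hx
    rw [hx]
    exact h x)
  have h3 : (measureUnivNNReal (haarAddCircle (T := 2 * Real.pi)) : ℝ) = 1 := by
    simp [measureUnivNNReal]
  rwa [h3, Real.one_rpow, one_mul] at h2

/-- square summability -/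
lemma sq_bound {ν : ℤ → ℂ} (hν : Growth ν) {C : ℝ} (hC : 0 ≤ C)
    (hb : ∀ z : ℂ, ‖z‖ < 1 → ‖hT ν z‖ ≤ C) (s : Finset ℤ) : ∑ n ∈ s, ‖ν n‖ ^ 2 ≤ C ^ 2 := by
  have key : ∀ r : ℝ, 0 ≤ r → r < 1 → ∑ n ∈ s, (r ^ n.natAbs * ‖ν n‖) ^ 2 ≤ C ^ 2 := by
    intro r h0 h1
    have h2 := (norm_HL_le hν h0 h1 hC hb).2
    have h3 := (fourierBasis (T := 2 * Real.pi)).orthonormal.sum_inner_products_le (HL ν r) (s := s)
    have h4 : ∀ n ∈ s, (r ^ n.natAbs * ‖ν n‖) ^ 2 =
        ‖⟪fourierBasis (T := 2 * Real.pi) n, HL ν r⟫_ℂ‖ ^ 2 := by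
      intro n _
      rw [← HilbertBasis.repr_apply_apply, repr_HL hν h0 h1, co, norm_mul, norm_pow,
        Complex.norm_real, Real.norm_of_nonneg h0]
    rw [Finset.sum_congr rfl h4]
    refine h3.trans ?_
    gcongr
  have hlim : Tendsto (fun r : ℝ => ∑ n ∈ s, (r ^ n.natAbs * ‖ν n‖) ^ 2) (𝓝[<] 1)
      (𝓝 (∑ n ∈ s, (1 ^ n.natAbs * ‖ν n‖) ^ 2)) := by
    have : Continuous fun r : ℝ => ∑ n ∈ s, (r ^ n.natAbs * ‖ν n‖) ^ 2 := by fun_prop
    exact (this.tendsto 1).mono_left nhdsWithin_le_nhds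
  simp only [one_pow, one_mul] at hlim
  refine le_of_tendsto hlim ?_
  have : Ioo (0 : ℝ) 1 ∈ 𝓝[<] (1 : ℝ) := Ioo_mem_nhdsLT zero_lt_one
  filter_upwards [this] with r hr
  exact key r hr.1.le hr.2

lemma memlp {ν : ℤ → ℂ} (hν : Growth ν) {C : ℝ} (hC : 0 ≤ C)
    (hb : ∀ z : ℂ, ‖z‖ < 1 → ‖hT ν z‖ ≤ C) : Memℓp (fun n : ℤ => ν n) 2 := by
  refine memℓp_gen' (C := C ^ 2) fun s => ?_
  have := sq_bound hν hC hb s
  simpa using this

/-- the density as an element of `L²` -/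
theorem exists_density {ν : ℤ → ℂ} (hν : Growth ν) {C : ℝ} (hC : 0 ≤ C)
    (hb : ∀ z : ℂ, ‖z‖ < 1 → ‖hT ν z‖ ≤ C) :
    ∃ φ : Lp ℂ 2 (haarAddCircle (T := 2 * Real.pi)),
      (∀ n : ℤ, (fourierBasis (T := 2 * Real.pi)).repr φ n = ν n) ∧
      ∀ᵐ x ∂(haarAddCircle (T := 2 * Real.pi)), ‖φ x‖ ≤ C := by
  set v : lp (fun _ : ℤ => ℂ) 2 := ⟨fun n => ν n, memlp hν hC hb⟩ with hv
  set φ := (fourierBasis (T := 2 * Real.pi)).repr.symm v with hφ
  have hrepr : ∀ n : ℤ, (fourierBasis (T := 2 * Real.pi)).repr φ n = ν n := by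
    intro n
    rw [hφ, LinearIsometryEquiv.apply_symm_apply]
  refine ⟨φ, hrepr, ?_⟩
  -- approximations
  set r : ℕ → ℝ := fun k => 1 - 1 / ((k : ℝ) + 1) with hr
  have hr0 : ∀ k, 0 ≤ r k := by
    intro k
    have : 1 / ((k : ℝ) + 1) ≤ 1 := by
      rw [div_le_one (by positivity)]
      linarith [(Nat.cast_nonneg k : (0 : ℝ) ≤ k)]
    simp only [hr]
    linarith
  have hr1 : ∀ k, r k < 1 := by
    intro k
    have : 0 < 1 / ((k : ℝ) + 1) := by positivity
    simp only [hr]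
    linarith
  have hrlim : Tendsto r atTop (𝓝 1) := by
    have := (tendsto_one_div_add_atTop_nhds_zero_nat (𝕜 := ℝ)).const_sub 1
    simpa [hr] using this
  have hsummable : Summable fun n : ℤ => ‖ν n‖ ^ 2 := by
    have := (memℓp_gen_iff (p := 2) (by norm_num)).mp (memlp hν hC hb)
    simpa using this
  have hnorm : ∀ k, ‖HL ν (r k) - φ‖ ^ 2 = ∑' n : ℤ, ‖co ν (r k) n - ν n‖ ^ 2 := by
    intro k
    rw [← (fourierBasis (T := 2 * Real.pi)).repr.norm_map]
    have h := lp.norm_rpow_eq_tsum (p := 2) (by norm_num)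
      ((fourierBasis (T := 2 * Real.pi)).repr (HL ν (r k) - φ))
    have h2 : (2 : ℝ≥0∞).toReal = (2 : ℕ) := by norm_num
    rw [h2] at h
    simp only [Real.rpow_natCast] at h
    rw [h]
    refine tsum_congr fun n => ?_
    rw [map_sub, lp.coeFn_sub, Pi.sub_apply, repr_HL hν (hr0 k) (hr1 k), hrepr]
  have hlim : Tendsto (fun k => ∑' n : ℤ, ‖co ν (r k) n - ν n‖ ^ 2) atTop (𝓝 (∑' n : ℤ, (0 : ℝ))) := by
    refine tendsto_tsum_of_dominated_convergence (bound := fun n => ‖ν n‖ ^ 2) hsummable ?_ ?_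
    · intro n
      have h1 : Tendsto (fun k => ‖co ν (r k) n - ν n‖ ^ 2) atTop
          (𝓝 (‖((1 : ℝ) : ℂ) ^ n.natAbs * ν n - ν n‖ ^ 2)) := by
        unfold co
        have : Continuous fun x : ℝ => ‖(x : ℂ) ^ n.natAbs * ν n - ν n‖ ^ 2 := by fun_prop
        exact (this.tendsto 1).comp hrlim
      simpa using h1
    · refine Filter.Eventually.of_forall fun k n => ?_
      rw [Real.norm_of_nonneg (sq_nonneg _)]
      have e : co ν (r k) n - ν n = (((r k) ^ n.natAbs - 1 : ℝ) : ℂ) * ν n := by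
        unfold co
        push_cast
        ring
      rw [e, norm_mul, mul_pow, Complex.norm_real]
      have h1 : |r k ^ n.natAbs - 1| ≤ 1 := by
        rw [abs_le]
        have := pow_nonneg (hr0 k) n.natAbs
        have := pow_le_one₀ (n := n.natAbs) (hr0 k) (hr1 k).le
        constructor <;> linarith
      rw [Real.norm_eq_abs]
      have h2 : |r k ^ n.natAbs - 1| ^ 2 ≤ 1 := pow_le_one₀ (abs_nonneg _) h1
      exact mul_le_of_le_one_left (sq_nonneg _) h2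
  rw [tsum_zero] at hlim
  have hconv : Tendsto (fun k => HL ν (r k)) atTop (𝓝 φ) := by
    rw [tendsto_iff_norm_sub_tendsto_zero]
    simp_rw [← hnorm] at hlim
    have := hlim.sqrt
    simpa [Real.sqrt_sq (norm_nonneg _)] using this
  obtain ⟨ns, -, hns⟩ := (tendstoInMeasure_of_tendsto_Lp hconv).exists_seq_tendsto_ae
  have hall : ∀ᵐ x ∂(haarAddCircle (T := 2 * Real.pi)), ∀ k, ‖HL ν (r k) x‖ ≤ C := by
    rw [ae_all_iff]
    intro k
    filter_upwards [HL_ae ν (r k)] with x hx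
    rw [hx]
    exact (norm_HL_le hν (hr0 k) (hr1 k) hC hb).1 x
  filter_upwards [hns, hall] with x hx hx2
  exact le_of_tendsto hx.norm (Filter.Eventually.of_forall fun i => hx2 (ns i))

end Pool.Agent.R249.Bi
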