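import Mathlib

/-! The Poisson kernel and the biharmonic Poisson kernel, the mean value identity. -/

set_option autoImplicit false

open MeasureTheory Set Filter Topology Complex Metric

namespace Pool.Agent.R249.Bi

/-- the Poisson kernel -/
noncomputable def P (z ξ : ℂ) : ℝ := (1 - ‖z‖ ^ 2) / ‖ξ - z‖ ^ 2

/-- the biharmonic Poisson kernel -/
noncomputable def P1 (z ξ : ℂ) : ℝ := P z ξ * Real.log (P z ξ)

lemma sub_ne {z ξ : ℂ} (hz : ‖z‖ < 1) (hξ : ‖ξ‖ = 1) : ξ - z ≠ 0 := by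
  intro h
  rw [sub_eq_zero] at h
  rw [h] at hξ
  linarith

lemma one_sub_pos {z : ℂ} (hz : ‖z‖ < 1) : 0 < 1 - ‖z‖ ^ 2 := by
  have := norm_nonneg z
  nlinarith

lemma P_pos {z ξ : ℂ} (hz : ‖z‖ < 1) (hξ : ‖ξ‖ = 1) : 0 < P z ξ := by
  unfold P
  have h1 := one_sub_pos hz
  have h2 := norm_pos_iff.mpr (sub_ne hz hξ)
  positivity

lemma one_sub_ne {z ξ : ℂ} (hz : ‖z‖ < 1) (hξ : ‖ξ‖ ≤ 1) : 1 - (starRingEnd ℂ) z * ξ ≠ 0 := by
  intro h
  rw [sub_eq_zero] at h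
  have h2 : ‖(starRingEnd ℂ) z * ξ‖ < 1 := by
    rw [norm_mul, Complex.norm_conj]
    calc ‖z‖ * ‖ξ‖ ≤ ‖z‖ * 1 := by gcongr
      _ < 1 := by linarith
  rw [← h, norm_one] at h2
  exact lt_irrefl _ h2

lemma norm_swap (z : ℂ) {ξ : ℂ} (hξ : ‖ξ‖ = 1) : ‖1 - (starRingEnd ℂ) z * ξ‖ = ‖ξ - z‖ := by
  have h1 : (starRingEnd ℂ) ξ * ξ = 1 := by
    rw [mul_comm, Complex.mul_conj, Complex.normSq_eq_norm_sq, hξ]
    norm_num
  have h2 : 1 - (starRingEnd ℂ) z * ξ = (starRingEnd ℂ) (ξ - z) * ξ := by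
    rw [map_sub, sub_mul, h1]
  rw [h2, norm_mul, hξ, mul_one, Complex.norm_conj]

/-- the automorphism of the disc mapping `0` to `z0` -/
noncomputable def mob (z0 w : ℂ) : ℂ := (w + z0) / (1 + (starRingEnd ℂ) z0 * w)

lemma one_add_ne {z0 w : ℂ} (hz : ‖z0‖ < 1) (hw : ‖w‖ ≤ 1) : 1 + (starRingEnd ℂ) z0 * w ≠ 0 := by
  have h := one_sub_ne (z := z0) (ξ := -w) hz (by rwa [norm_neg])
  rwa [mul_neg, sub_neg_eq_add] at h

lemma aux_sq (z0 w : ℂ) : ‖1 + (starRingEnd ℂ) z0 * w‖ ^ 2 - ‖w + z0‖ ^ 2 =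
    (1 - ‖w‖ ^ 2) * (1 - ‖z0‖ ^ 2) := by
  simp only [← Complex.normSq_eq_norm_sq, Complex.normSq_apply, Complex.add_re, Complex.add_im,
    Complex.mul_re, Complex.mul_im, Complex.conj_re, Complex.conj_im, Complex.one_re,
    Complex.one_im]
  ring

lemma one_sub_mob {z0 w : ℂ} (hz : ‖z0‖ < 1) (hw : ‖w‖ ≤ 1) : 1 - ‖mob z0 w‖ ^ 2 =
    (1 - ‖w‖ ^ 2) * (1 - ‖z0‖ ^ 2) / ‖1 + (starRingEnd ℂ) z0 * w‖ ^ 2 := by
  have h1 : ‖1 + (starRingEnd ℂ) z0 * w‖ ^ 2 ≠ 0 := by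
    have := norm_pos_iff.mpr (one_add_ne hz hw)
    positivity
  rw [← aux_sq, mob, norm_div, div_pow, sub_div, div_self h1]

lemma norm_mob_lt {z0 w : ℂ} (hz : ‖z0‖ < 1) (hw : ‖w‖ < 1) : ‖mob z0 w‖ < 1 := by
  have h1 := one_sub_mob hz hw.le
  have h2 := one_sub_pos hz
  have h3 := one_sub_pos hw
  have h4 := norm_pos_iff.mpr (one_add_ne hz hw.le)
  have h5 : 0 < 1 - ‖mob z0 w‖ ^ 2 := by rw [h1]; positivity
  by_contra hcon
  push Not at hcon
  have : 1 ≤ ‖mob z0 w‖ ^ 2 := one_le_pow₀ hcon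
  linarith

/-- the corresponding boundary point -/
noncomputable def bd (z0 ξ : ℂ) : ℂ := (ξ - z0) / (1 - (starRingEnd ℂ) z0 * ξ)

lemma norm_bd {z0 ξ : ℂ} (hz : ‖z0‖ < 1) (hξ : ‖ξ‖ = 1) : ‖bd z0 ξ‖ = 1 := by
  rw [bd, norm_div, norm_swap _ hξ]
  exact div_self (norm_pos_iff.mpr (sub_ne hz hξ)).ne'

lemma P_mob {z0 w ξ : ℂ} (hz : ‖z0‖ < 1) (hw : ‖w‖ < 1) (hξ : ‖ξ‖ = 1) :
    P (mob z0 w) ξ = P z0 ξ * P w (bd z0 ξ) := by
  have ha := one_add_ne hz hw.le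
  have hb := one_sub_ne hz hξ.le
  have h1 : ξ - mob z0 w = (1 - (starRingEnd ℂ) z0 * ξ) * (bd z0 ξ - w) /
      (1 + (starRingEnd ℂ) z0 * w) := by
    unfold bd mob
    generalize (starRingEnd ℂ) z0 = c at ha hb ⊢
    rw [eq_div_iff ha, sub_mul, div_mul_cancel₀ _ ha, mul_sub, mul_div_cancel₀ _ hb]
    ring
  have h2 : ‖ξ - mob z0 w‖ = ‖ξ - z0‖ * ‖bd z0 ξ - w‖ / ‖1 + (starRingEnd ℂ) z0 * w‖ := by
    rw [h1, norm_div, norm_mul, norm_swap _ hξ]
  have h3 := norm_pos_iff.mpr ha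
  have h4 := norm_pos_iff.mpr (sub_ne hz hξ)
  have h5 := norm_pos_iff.mpr (sub_ne hw (norm_bd hz hξ))
  unfold P
  rw [one_sub_mob hz hw.le, h2]
  field_simp

lemma P1_mob {z0 w ξ : ℂ} (hz : ‖z0‖ < 1) (hw : ‖w‖ < 1) (hξ : ‖ξ‖ = 1) :
    P1 (mob z0 w) ξ = P1 z0 ξ * P w (bd z0 ξ) + P z0 ξ * P1 w (bd z0 ξ) := by
  unfold P1
  rw [P_mob hz hw hξ, Real.log_mul (P_pos hz hξ).ne' (P_pos hw (norm_bd hz hξ)).ne']
  ring

/-- averages of functions of `β - θ` -/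
lemma avg_rot (K : ℂ → ℝ) (β : ℝ) :
    (2 * Real.pi)⁻¹ * ∫ θ in (0 : ℝ)..(2 * Real.pi), K (circleMap 0 1 (β - θ)) =
      Real.circleAverage K 0 1 := by
  rw [Real.circleAverage_def, smul_eq_mul]
  congr 1
  rw [intervalIntegral.integral_comp_sub_left (fun x => K (circleMap 0 1 x)) β]
  have hper : Function.Periodic (fun x => K (circleMap 0 1 x)) (2 * Real.pi) := by
    intro x
    simp only
    rw [periodic_circleMap 0 1 x]
  have h := hper.intervalIntegral_add_eq (β - 2 * Real.pi) 0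
  simp only [sub_add_cancel, zero_add] at h
  rw [sub_zero]
  exact h

lemma circleMap_norm (ρ θ : ℝ) (hρ : 0 ≤ ρ) : ‖circleMap 0 ρ θ‖ = ρ := by
  rw [norm_circleMap_zero, abs_of_nonneg hρ]

lemma P_circle {ρ : ℝ} (h0 : 0 ≤ ρ) (β θ : ℝ) :
    P (circleMap 0 ρ θ) (circleMap 0 1 β) = P ρ (circleMap 0 1 (β - θ)) := by
  unfold P
  rw [circleMap_norm ρ θ h0, Complex.norm_real, Real.norm_of_nonneg h0]
  congr 2
  have h1 : circleMap 0 1 β - circleMap 0 ρ θ = circleMap 0 1 θ * (circleMap 0 1 (β - θ) - ρ) := by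
    simp only [circleMap, zero_add, ofReal_one, one_mul]
    rw [mul_sub, ← Complex.exp_add]
    congr 1
    · congr 1
      push_cast
      ring
    · ring
  rw [h1, norm_mul, circleMap_norm 1 θ zero_le_one, one_mul]

lemma P_eq_poissonKernel {w ζ : ℂ} (hζ : ‖ζ‖ = 1) : P w ζ = poissonKernel 0 w ζ := by
  rw [poissonKernel_def, P]
  simp [hζ]

lemma sphere_norm {ζ : ℂ} (hζ : ζ ∈ sphere (0 : ℂ) |1|) : ‖ζ‖ = 1 := by
  simpa using hζ

/-- Poisson formula for holomorphic functions -/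
lemma poisson_formula {g : ℂ → ℂ} {w : ℂ} (hg : DiffContOnCl ℂ g (ball 0 1)) (hw : ‖w‖ < 1) :
    Real.circleAverage (fun ζ => (P w ζ : ℂ) * g ζ) 0 1 = g w := by
  rw [← hg.circleAverage_poissonKernel_smul (by simpa using hw)]
  refine Real.circleAverage_congr_sphere fun ζ hζ => ?_
  simp only [Pi.smul_apply', Complex.real_smul]
  rw [P_eq_poissonKernel (sphere_norm hζ)]

lemma contP_at {w ζ : ℂ} (hw : ‖w‖ < 1) (hζ : ‖ζ‖ = 1) : ContinuousAt (P w) ζ := by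
  unfold P
  refine ContinuousAt.div (by fun_prop) (by fun_prop) ?_
  have := norm_pos_iff.mpr (sub_ne hw hζ)
  positivity

lemma contP {w : ℂ} (hw : ‖w‖ < 1) : ContinuousOn (P w) (sphere 0 1) := fun ζ hζ =>
  (contP_at hw (by simpa using hζ)).continuousWithinAt

lemma contP1 {w : ℂ} (hw : ‖w‖ < 1) : ContinuousOn (P1 w) (sphere 0 1) := by
  intro ζ hζ
  have hζ1 : ‖ζ‖ = 1 := by simpa using hζ
  refine ContinuousAt.continuousWithinAt ?_
  exact (contP_at hw hζ1).mul ((contP_at hw hζ1).log (P_pos hw hζ1).ne')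

lemma avg_P {w : ℂ} (hw : ‖w‖ < 1) : Real.circleAverage (P w) 0 1 = 1 := by
  have h := poisson_formula (g := fun _ => 1) (w := w)
    (by exact diffContOnCl_const) hw
  simp only [mul_one] at h
  have h2 : Real.circleAverage (fun ζ => (P w ζ : ℂ)) 0 1 =
      ((Real.circleAverage (P w) 0 1 : ℝ) : ℂ) := by
    rw [Real.circleAverage_def, Real.circleAverage_def, Complex.real_smul, smul_eq_mul]
    push_cast
    congr 1
    exact intervalIntegral.integral_ofReal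
  rw [h2] at h
  exact_mod_cast h

lemma re_lt_one {u : ℂ} (hu : ‖u‖ < 1) : 1 - u ∈ slitPlane := by
  left
  have := Complex.re_le_norm u
  simp only [Complex.sub_re, Complex.one_re]
  linarith

lemma avg_P1 {ρ : ℝ} (h0 : 0 ≤ ρ) (h1 : ρ < 1) :
    Real.circleAverage (P1 ρ) 0 1 = Real.log (1 / (1 - ρ ^ 2)) := by
  have hw : ‖(ρ : ℂ)‖ < 1 := by rwa [Complex.norm_real, Real.norm_of_nonneg h0]
  have hmem : ∀ ζ : ℂ, ‖ζ‖ ≤ 1 → 1 - (ρ : ℂ) * ζ ∈ slitPlane := by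
    intro ζ hζ
    apply re_lt_one
    rw [norm_mul]
    calc ‖(ρ : ℂ)‖ * ‖ζ‖ ≤ ‖(ρ : ℂ)‖ * 1 := by gcongr
      _ < 1 := by linarith
  have hg : DiffContOnCl ℂ (fun ζ : ℂ => Complex.log (1 - ρ * ζ)) (ball 0 1) := by
    refine DifferentiableOn.diffContOnCl_ball (U := closedBall 0 1) ?_ le_rfl
    intro ζ hζ
    refine DifferentiableAt.differentiableWithinAt ?_
    refine DifferentiableAt.clog (by fun_prop) (hmem ζ ?_)
    simpa using hζ
  have h := poisson_formula hg hw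
  have hpos : 0 < 1 - ρ ^ 2 := by nlinarith
  -- real parts
  have hre : Real.circleAverage (fun ζ => P ρ ζ * (Complex.log (1 - ρ * ζ)).re) 0 1 =
      Real.log (1 - ρ ^ 2) := by
    have h2 : (Real.circleAverage (fun ζ => (P ρ ζ : ℂ) * Complex.log (1 - ρ * ζ)) 0 1).re =
        Real.circleAverage (fun ζ => P ρ ζ * (Complex.log (1 - ρ * ζ)).re) 0 1 := by
      have h3 := Complex.reCLM.circleAverage_comp_comm
        (f := fun ζ => (P ρ ζ : ℂ) * Complex.log (1 - ρ * ζ)) (c := 0) (R := 1) ?_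
      · rw [← Complex.reCLM_apply, ← h3]
        congr 1
        funext ζ
        simp
      · refine ContinuousOn.circleIntegrable zero_le_one ?_
        intro ζ hζ
        have hζ1 : ‖ζ‖ = 1 := by simpa using hζ
        refine ContinuousAt.continuousWithinAt ?_
        refine ContinuousAt.mul ?_ ?_
        · exact Complex.continuous_ofReal.continuousAt.comp (contP_at hw hζ1)
        · exact ContinuousAt.clog (by fun_prop) (hmem ζ hζ1.le)
    rw [← h2, h]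
    have : (1 - (ρ : ℂ) * ρ) = ((1 - ρ ^ 2 : ℝ) : ℂ) := by push_cast; ring
    rw [this, Complex.log_ofReal_re]
  have hkey : ∀ ζ ∈ sphere (0 : ℂ) |1|, P1 ρ ζ =
      Real.log (1 - ρ ^ 2) * P ρ ζ + (-2) * (P ρ ζ * (Complex.log (1 - ρ * ζ)).re) := by
    intro ζ hζ
    have hζ1 := sphere_norm hζ
    have hne := norm_pos_iff.mpr (sub_ne hw hζ1)
    have e1 : (Complex.log (1 - ρ * ζ)).re = Real.log ‖ζ - ρ‖ := by
      rw [Complex.log_re, ← norm_swap (ρ : ℂ) hζ1, Complex.conj_ofReal]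
    rw [e1, P1]
    have e2 : Real.log (P ρ ζ) = Real.log (1 - ρ ^ 2) - 2 * Real.log ‖ζ - ρ‖ := by
      unfold P
      rw [Complex.norm_real, Real.norm_of_nonneg h0, Real.log_div hpos.ne' (by positivity),
        Real.log_pow]
      norm_num
    rw [e2]
    ring
  have hcont : ContinuousOn (fun ζ => P ρ ζ * (Complex.log (1 - ρ * ζ)).re) (sphere 0 1) := by
    intro ζ hζ
    have hζ1 : ‖ζ‖ = 1 := by simpa using hζ
    refine ContinuousAt.continuousWithinAt ?_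
    refine (contP_at hw hζ1).mul ?_
    exact Complex.continuous_re.continuousAt.comp
      (ContinuousAt.clog (by fun_prop) (hmem ζ hζ1.le))
  have hint1 : CircleIntegrable (P ρ) 0 1 := (contP hw).circleIntegrable zero_le_one
  have hint2 : CircleIntegrable (fun ζ => P ρ ζ * (Complex.log (1 - ρ * ζ)).re) 0 1 :=
    hcont.circleIntegrable zero_le_one
  rw [Real.circleAverage_congr_sphere hkey]
  have h5 : Real.circleAverage (fun ζ => Real.log (1 - ρ ^ 2) * P ρ ζ +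
      (-2) * (P ρ ζ * (Complex.log (1 - ρ * ζ)).re)) 0 1 =
      Real.log (1 - ρ ^ 2) * Real.circleAverage (P ρ) 0 1 +
      (-2) * Real.circleAverage (fun ζ => P ρ ζ * (Complex.log (1 - ρ * ζ)).re) 0 1 := by
    rw [← smul_eq_mul, ← smul_eq_mul (-2 : ℝ), ← Real.circleAverage_fun_smul,
      ← Real.circleAverage_fun_smul, ← Real.circleAverage_fun_add]
    · rfl
    · exact hint1.const_fun_smul
    · exact hint2.const_fun_smul
  rw [h5, hre, avg_P hw, one_div, Real.log_inv]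
  ring

/-- **the mean value identity** -/
theorem mean_P1 {z0 ξ : ℂ} (hz : ‖z0‖ < 1) (hξ : ‖ξ‖ = 1) {ρ : ℝ} (h0 : 0 ≤ ρ) (h1 : ρ < 1) :
    (2 * Real.pi)⁻¹ * ∫ θ in (0 : ℝ)..(2 * Real.pi), P1 (mob z0 (circleMap 0 ρ θ)) ξ =
      P1 z0 ξ + P z0 ξ * Real.log (1 / (1 - ρ ^ 2)) := by
  have hw : ‖(ρ : ℂ)‖ < 1 := by rwa [Complex.norm_real, Real.norm_of_nonneg h0]
  obtain ⟨β, hβ⟩ : ∃ β : ℝ, bd z0 ξ = circleMap 0 1 β := by
    refine ⟨Complex.arg (bd z0 ξ), ?_⟩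
    have := Complex.norm_mul_exp_arg_mul_I (bd z0 ξ)
    rw [norm_bd hz hξ] at this
    rw [circleMap, zero_add, this]
  have e : ∀ θ : ℝ, P1 (mob z0 (circleMap 0 ρ θ)) ξ =
      P1 z0 ξ * P ρ (circleMap 0 1 (β - θ)) + P z0 ξ * P1 ρ (circleMap 0 1 (β - θ)) := by
    intro θ
    rw [P1_mob hz (by rwa [circleMap_norm _ _ h0]) hξ, hβ]
    unfold P1
    rw [P_circle h0]
  have hc1 : Continuous fun θ : ℝ => P ρ (circleMap 0 1 (β - θ)) := by
    have h2 : Continuous fun θ : ℝ => circleMap 0 1 (β - θ) := by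
      exact (continuous_circleMap 0 1).comp (by fun_prop)
    exact (contP hw).comp_continuous h2 fun θ => by simp
  have hc2 : Continuous fun θ : ℝ => P1 ρ (circleMap 0 1 (β - θ)) := by
    have h2 : Continuous fun θ : ℝ => circleMap 0 1 (β - θ) := by
      exact (continuous_circleMap 0 1).comp (by fun_prop)
    exact (contP1 hw).comp_continuous h2 fun θ => by simp
  simp_rw [e]
  rw [intervalIntegral.integral_add ((hc1.const_mul _).intervalIntegrable _ _)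
    ((hc2.const_mul _).intervalIntegrable _ _), intervalIntegral.integral_const_mul,
    intervalIntegral.integral_const_mul]
  have a1 := avg_rot (P ρ) β
  have a2 := avg_rot (P1 ρ) β
  rw [avg_P hw] at a1
  rw [avg_P1 h0 h1] at a2
  rw [← a2]
  calc _ = P1 z0 ξ * ((2 * Real.pi)⁻¹ * ∫ θ in (0 : ℝ)..(2 * Real.pi),
        P ρ (circleMap 0 1 (β - θ))) + P z0 ξ * ((2 * Real.pi)⁻¹ *
        ∫ θ in (0 : ℝ)..(2 * Real.pi), P1 ρ (circleMap 0 1 (β - θ))) := by ring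
    _ = _ := by rw [a1, mul_one]

end Pool.Agent.R249.Bi
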