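import Pool.Agent.R249.Bi.Coef

/-! The mean value identity for transforms of analytic functionals and the bound for `h`. -/

set_option autoImplicit false

open MeasureTheory Set Filter Topology Complex Metric

namespace Pool.Agent.R249.Bi

/-- growth condition for the coefficients of an analytic functional -/
def Growth (ν : ℤ → ℂ) : Prop := ∀ s : ℝ, 1 < s → ∃ C : ℝ, ∀ n : ℤ, ‖ν n‖ ≤ C * s ^ n.natAbs

/-- the value of the analytic functional with coefficients `ν` on `g` -/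
noncomputable def pair (ν : ℤ → ℂ) (g : ℂ → ℂ) : ℂ := ∑' n : ℤ, cf g n * ν (-n)

/-- the biharmonic transform -/
noncomputable def fT (ν : ℤ → ℂ) (z : ℂ) : ℂ := pair ν fun ξ => (P1 z ξ : ℂ)

/-- the harmonic transform -/
noncomputable def hT (ν : ℤ → ℂ) (z : ℂ) : ℂ := pair ν fun ξ => (P z ξ : ℂ)

lemma summable_natAbs {q : ℝ} (h0 : 0 ≤ q) (h1 : q < 1) : Summable fun n : ℤ => q ^ n.natAbs := by
  apply Summable.of_nat_of_neg
  · simpa using summable_geometric_of_lt_one h0 h1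
  · simpa using summable_geometric_of_lt_one h0 h1

/-- the terms are summable, uniformly on compact sets -/
lemma term_bound {ν : ℤ → ℂ} (hν : Growth ν) {r : ℝ} (hr0 : 0 ≤ r) (hr1 : r < 1) :
    ∃ (B q : ℝ), 0 ≤ q ∧ q < 1 ∧ ∀ z : ℂ, ‖z‖ ≤ r → ∀ n : ℤ,
      ‖cf (fun ξ => (P1 z ξ : ℂ)) n * ν (-n)‖ ≤ B * q ^ n.natAbs ∧
      ‖cf (fun ξ => (P z ξ : ℂ)) n * ν (-n)‖ ≤ B * q ^ n.natAbs := by
  obtain ⟨s, hs1, hrs⟩ : ∃ s : ℝ, 1 < s ∧ r * s < 1 := by
    rcases hr0.eq_or_lt with h | h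
    · exact ⟨2, by norm_num, by rw [← h]; norm_num⟩
    · refine ⟨(1 + 1 / r) / 2, ?_, ?_⟩
      · have : 1 < 1 / r := by rw [lt_div_iff₀ h]; linarith
        linarith
      · have : r * ((1 + 1 / r) / 2) = (r + 1) / 2 := by field_simp
        rw [this]
        linarith
  obtain ⟨t, ht1, hts⟩ : ∃ t : ℝ, 1 < t ∧ t < s := exists_between hs1
  obtain ⟨B, hB⟩ := cf_P1_le hr0 hs1 hrs
  obtain ⟨C, hC⟩ := hν t ht1
  have hs0 : 0 < s := by linarith
  have hC0 : 0 ≤ C := by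
    have := (norm_nonneg _).trans (hC 0)
    simpa using this
  refine ⟨B * C, s⁻¹ * t, by positivity, ?_, ?_⟩
  · rw [inv_mul_lt_iff₀ hs0, mul_one]
    exact hts
  · intro z hz n
    have h1 := hC (-n)
    rw [Int.natAbs_neg] at h1
    have h2 := hB z hz n
    constructor
    · rw [norm_mul, mul_pow]
      calc _ ≤ (B * s⁻¹ ^ n.natAbs) * (C * t ^ n.natAbs) :=
            mul_le_mul h2.1 h1 (norm_nonneg _) ((norm_nonneg _).trans h2.1)
        _ = _ := by ring
    · rw [norm_mul, mul_pow]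
      calc _ ≤ (B * s⁻¹ ^ n.natAbs) * (C * t ^ n.natAbs) :=
            mul_le_mul h2.2 h1 (norm_nonneg _) ((norm_nonneg _).trans h2.2)
        _ = _ := by ring

lemma summable_term {ν : ℤ → ℂ} (hν : Growth ν) {z : ℂ} (hz : ‖z‖ < 1) :
    (Summable fun n : ℤ => cf (fun ξ => (P1 z ξ : ℂ)) n * ν (-n)) ∧
    (Summable fun n : ℤ => cf (fun ξ => (P z ξ : ℂ)) n * ν (-n)) := by
  obtain ⟨B, q, hq0, hq1, h⟩ := term_bound hν (norm_nonneg z) hz
  exact ⟨Summable.of_norm_bounded ((summable_natAbs hq0 hq1).mul_left B) fun n => (h z le_rfl n).1,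
    Summable.of_norm_bounded ((summable_natAbs hq0 hq1).mul_left B) fun n => (h z le_rfl n).2⟩

lemma mob_bound {z0 w : ℂ} (hz : ‖z0‖ < 1) {ρ : ℝ} (hρ1 : ρ < 1) (hw : ‖w‖ = ρ) :
    (1 - ρ ^ 2) * (1 - ‖z0‖ ^ 2) / 4 ≤ 1 - ‖mob z0 w‖ ^ 2 := by
  have hw1 : ‖w‖ < 1 := by rw [hw]; exact hρ1
  have h1 := one_sub_mob hz hw1.le
  have h2 := one_sub_pos hz
  have h3 := one_sub_pos hw1
  have h4 := norm_pos_iff.mpr (one_add_ne hz hw1.le)
  have h5 : ‖1 + (starRingEnd ℂ) z0 * w‖ ≤ 2 := by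
    calc _ ≤ ‖(1 : ℂ)‖ + ‖(starRingEnd ℂ) z0 * w‖ := norm_add_le _ _
      _ = 1 + ‖z0‖ * ‖w‖ := by rw [norm_one, norm_mul, Complex.norm_conj]
      _ ≤ 2 := by nlinarith [norm_nonneg z0, norm_nonneg w]
  rw [h1, ← hw]
  gcongr
  nlinarith

lemma cont_mob {z0 : ℂ} (hz : ‖z0‖ < 1) {ρ : ℝ} (h0 : 0 ≤ ρ) (h1 : ρ < 1) :
    Continuous fun θ : ℝ => mob z0 (circleMap 0 ρ θ) := by
  unfold mob
  refine Continuous.div ?_ ?_ ?_
  · exact (continuous_circleMap 0 ρ).add continuous_const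
  · exact continuous_const.add (continuous_const.mul (continuous_circleMap 0 ρ))
  · intro θ
    exact one_add_ne hz (by rw [circleMap_norm _ _ h0]; exact h1.le)

lemma cont_P1_param {c : ℝ → ℂ} (hc : Continuous c) (hc1 : ∀ θ, ‖c θ‖ < 1) :
    Continuous fun p : ℝ × ℝ => P1 (c p.1) (circleMap 0 1 p.2) := by
  have hP : Continuous fun p : ℝ × ℝ => P (c p.1) (circleMap 0 1 p.2) := by
    unfold P
    have h1 : Continuous fun p : ℝ × ℝ => c p.1 := hc.comp continuous_fst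
    have h2 : Continuous fun p : ℝ × ℝ => circleMap 0 1 p.2 :=
      (continuous_circleMap 0 1).comp continuous_snd
    refine Continuous.div (continuous_const.sub (h1.norm.pow 2)) ((h2.sub h1).norm.pow 2) ?_
    intro p
    have := norm_pos_iff.mpr (sub_ne (hc1 p.1) (circleMap_norm 1 p.2 zero_le_one))
    positivity
  exact hP.mul (hP.log fun p => (P_pos (hc1 p.1) (circleMap_norm 1 p.2 zero_le_one)).ne')

/-- **the mean value identity for transforms** -/
theorem mean_fT {ν : ℤ → ℂ} (hν : Growth ν) {z0 : ℂ} (hz : ‖z0‖ < 1) {ρ : ℝ} (h0 : 0 ≤ ρ)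
    (h1 : ρ < 1) :
    ∫ θ in (0 : ℝ)..(2 * Real.pi), fT ν (mob z0 (circleMap 0 ρ θ)) =
      (2 * Real.pi) * (fT ν z0 + hT ν z0 * Real.log (1 / (1 - ρ ^ 2))) := by
  set c : ℝ → ℂ := fun θ => mob z0 (circleMap 0 ρ θ) with hc
  have hcc : Continuous c := cont_mob hz h0 h1
  have hc1 : ∀ θ, ‖c θ‖ < 1 := fun θ => norm_mob_lt hz (by rwa [circleMap_norm _ _ h0])
  -- uniform radius
  obtain ⟨r, hr0, hr1, hr⟩ : ∃ r : ℝ, 0 ≤ r ∧ r < 1 ∧ ∀ θ, ‖c θ‖ ≤ r := by
    set δ := (1 - ρ ^ 2) * (1 - ‖z0‖ ^ 2) / 4 with hδ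
    have hδ0 : 0 < δ := by
      have := one_sub_pos hz
      have : 0 < 1 - ρ ^ 2 := by nlinarith
      positivity
    refine ⟨Real.sqrt (1 - δ), Real.sqrt_nonneg _, ?_, fun θ => ?_⟩
    · rw [Real.sqrt_lt' one_pos]
      linarith
    · have := mob_bound hz h1 (circleMap_norm ρ θ h0)
      apply Real.le_sqrt_of_sq_le
      simp only [hc]
      linarith
  obtain ⟨B, q, hq0, hq1, hb⟩ := term_bound hν hr0 hr1
  have hcont : Continuous fun p : ℝ × ℝ => P1 (c p.1) (circleMap 0 1 p.2) := cont_P1_param hcc hc1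
  have hcontF : ∀ n : ℤ, Continuous (Function.uncurry fun (θ φ : ℝ) =>
      (P1 (c θ) (circleMap 0 1 φ) : ℂ) * circleMap 0 1 φ ^ (-n)) := by
    intro n
    refine (Complex.continuous_ofReal.comp hcont).mul ?_
    refine Continuous.zpow₀ ((continuous_circleMap 0 1).comp continuous_snd) _ fun p => Or.inl ?_
    exact circleMap_ne_center one_ne_zero
  have hcf : ∀ (n : ℤ), (fun θ => cf (fun ξ => (P1 (c θ) ξ : ℂ)) n) = fun θ =>
      (2 * Real.pi : ℂ)⁻¹ * ∫ φ in (0 : ℝ)..(2 * Real.pi),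
        (P1 (c θ) (circleMap 0 1 φ) : ℂ) * circleMap 0 1 φ ^ (-n) := by
    intro n
    funext θ
    unfold cf
    rw [Real.circleAverage_def, Complex.real_smul]
    push_cast
    rfl
  have hcontcf : ∀ n : ℤ, Continuous fun θ => cf (fun ξ => (P1 (c θ) ξ : ℂ)) n := by
    intro n
    rw [hcf n]
    exact continuous_const.mul
      (intervalIntegral.continuous_parametric_intervalIntegral_of_continuous' (hcontF n) 0 _)
  have hsum := intervalIntegral.hasSum_integral_of_dominated_convergence (μ := volume)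
    (a := 0) (b := 2 * Real.pi)
    (F := fun (n : ℤ) (θ : ℝ) => cf (fun ξ => (P1 (c θ) ξ : ℂ)) n * ν (-n))
    (f := fun θ => fT ν (c θ)) (fun n _ => B * q ^ n.natAbs)
    (fun n => ((hcontcf n).mul continuous_const).aestronglyMeasurable)
    (fun n => Filter.Eventually.of_forall fun θ _ => (hb (c θ) (hr θ) n).1)
    (Filter.Eventually.of_forall fun θ _ => (summable_natAbs hq0 hq1).mul_left B)
    intervalIntegrable_const
    (Filter.Eventually.of_forall fun θ _ => (summable_term hν (hc1 θ)).1.hasSum)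
  -- the single integrals
  have hpi : (2 * Real.pi : ℂ) ≠ 0 := by
    have := Real.pi_ne_zero
    exact_mod_cast (by positivity : (2 * Real.pi : ℝ) ≠ 0)
  have hcP1 : Continuous fun φ : ℝ => P1 z0 (circleMap 0 1 φ) :=
    (contP1 hz).comp_continuous (continuous_circleMap 0 1) fun θ => by simp
  have hcP : Continuous fun φ : ℝ => P z0 (circleMap 0 1 φ) :=
    (contP hz).comp_continuous (continuous_circleMap 0 1) fun θ => by simp
  have hczp : ∀ n : ℤ, Continuous fun φ : ℝ => circleMap 0 1 φ ^ (-n) := fun n =>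
    Continuous.zpow₀ (continuous_circleMap 0 1) _ fun p => Or.inl (circleMap_ne_center one_ne_zero)
  have hone : ∀ n : ℤ, ∫ θ in (0 : ℝ)..(2 * Real.pi), cf (fun ξ => (P1 (c θ) ξ : ℂ)) n * ν (-n) =
      (2 * Real.pi) * (cf (fun ξ => (P1 z0 ξ : ℂ)) n * ν (-n) +
        cf (fun ξ => (P z0 ξ : ℂ)) n * ν (-n) * Real.log (1 / (1 - ρ ^ 2))) := by
    intro n
    rw [intervalIntegral.integral_mul_const, hcf n, intervalIntegral.integral_const_mul,
      intervalIntegral_intervalIntegral_swap]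
    · have hin : ∀ φ : ℝ, ∫ θ in (0 : ℝ)..(2 * Real.pi),
          (P1 (c θ) (circleMap 0 1 φ) : ℂ) * circleMap 0 1 φ ^ (-n) =
          (2 * Real.pi) * ((P1 z0 (circleMap 0 1 φ) : ℂ) * circleMap 0 1 φ ^ (-n) +
            (P z0 (circleMap 0 1 φ) : ℂ) * circleMap 0 1 φ ^ (-n) *
              Real.log (1 / (1 - ρ ^ 2))) := by
        intro φ
        rw [intervalIntegral.integral_mul_const, intervalIntegral.integral_ofReal]
        have := mean_P1 hz (circleMap_norm 1 φ zero_le_one) h0 h1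
        have h2 : ∫ θ in (0 : ℝ)..(2 * Real.pi), P1 (c θ) (circleMap 0 1 φ) =
            (2 * Real.pi) * (P1 z0 (circleMap 0 1 φ) +
              P z0 (circleMap 0 1 φ) * Real.log (1 / (1 - ρ ^ 2))) := by
          rw [← this]
          have hpi := Real.pi_pos
          simp only [hc]
          field_simp
        rw [h2]
        push_cast
        ring
      simp_rw [hin]
      rw [intervalIntegral.integral_const_mul, intervalIntegral.integral_add]
      · rw [intervalIntegral.integral_mul_const]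
        unfold cf
        rw [Real.circleAverage_def, Real.circleAverage_def, Complex.real_smul, Complex.real_smul]
        push_cast
        ring
      · refine Continuous.intervalIntegrable ?_ _ _
        exact (Complex.continuous_ofReal.comp hcP1).mul (hczp n)
      · refine Continuous.intervalIntegrable ?_ _ _
        exact ((Complex.continuous_ofReal.comp hcP).mul (hczp n)).mul continuous_const
    · refine ((hcontF n).continuousOn.integrableOn_compact
        (isCompact_Icc (a := (0 : ℝ)) (b := 2 * Real.pi) |>.prod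
          (isCompact_Icc (a := (0 : ℝ)) (b := 2 * Real.pi)))).mono_set ?_
      have hpos : (0 : ℝ) ≤ 2 * Real.pi := by positivity
      rw [uIoc_of_le hpos]
      exact Set.prod_mono Ioc_subset_Icc_self Ioc_subset_Icc_self
  rw [← hsum.tsum_eq]
  simp_rw [hone]
  rw [tsum_mul_left]
  congr 1
  rw [Summable.tsum_add (summable_term hν hz).1 ((summable_term hν hz).2.mul_right _),
    tsum_mul_right]
  rfl

/-- hyperbolic distance to the origin -/
noncomputable def hypR (z : ℂ) : ℝ := Real.log ((1 + ‖z‖) / (1 - ‖z‖))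

lemma hypR_le {z : ℂ} (hz : ‖z‖ < 1) {δ : ℝ} (hδ : 0 < δ) (h : δ ≤ 1 - ‖z‖ ^ 2) :
    hypR z ≤ Real.log (4 / δ) := by
  unfold hypR
  have h1 : 0 < 1 - ‖z‖ := by linarith
  have h2 : 0 ≤ ‖z‖ := norm_nonneg z
  refine Real.log_le_log (by positivity) ?_
  rw [div_le_div_iff₀ h1 hδ]
  calc (1 + ‖z‖) * δ ≤ (1 + ‖z‖) * (1 - ‖z‖ ^ 2) := by gcongr
    _ = (1 + ‖z‖) ^ 2 * (1 - ‖z‖) := by ring
    _ ≤ 4 * (1 - ‖z‖) := by
        have : (1 + ‖z‖) ^ 2 ≤ 4 := by nlinarith
        gcongr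

/-- **the bound for the harmonic function** -/
theorem hT_bounded {ν : ℤ → ℂ} (hν : Growth ν) {C : ℝ}
    (hf : ∀ z : ℂ, ‖z‖ < 1 → ‖fT ν z‖ ≤ C * (1 + hypR z)) {z0 : ℂ} (hz : ‖z0‖ < 1) :
    ‖hT ν z0‖ ≤ C * (5 + Real.log 64) := by
  have hC : 0 ≤ C := by
    have := (norm_nonneg _).trans (hf 0 (by simp))
    simpa [hypR] using this
  -- choice of the radius
  obtain ⟨ρ, h0, h1, hρz, hL⟩ : ∃ ρ : ℝ, 0 ≤ ρ ∧ ρ < 1 ∧ ‖z0‖ ≤ ρ ∧
      1 ≤ Real.log (1 / (1 - ρ ^ 2)) := by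
    set ρ0 := Real.sqrt (1 - Real.exp (-1)) with hρ0
    have he : 0 < Real.exp (-1) := Real.exp_pos _
    have he1 : Real.exp (-1) < 1 := by rw [Real.exp_lt_one_iff]; norm_num
    have hρ00 : 0 ≤ ρ0 := Real.sqrt_nonneg _
    have hρ01 : ρ0 < 1 := by
      rw [hρ0, Real.sqrt_lt' one_pos]
      linarith
    refine ⟨max ‖z0‖ ρ0, hρ00.trans (le_max_right _ _), max_lt hz hρ01, le_max_left _ _, ?_⟩
    have h2 : ρ0 ^ 2 = 1 - Real.exp (-1) := Real.sq_sqrt (by linarith)
    have h3 : ρ0 ^ 2 ≤ (max ‖z0‖ ρ0) ^ 2 := by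
      have := le_max_right ‖z0‖ ρ0
      gcongr
    have h4 : max ‖z0‖ ρ0 < 1 := max_lt hz hρ01
    have h5 : 0 ≤ max ‖z0‖ ρ0 := hρ00.trans (le_max_right _ _)
    have h6 : 0 < 1 - (max ‖z0‖ ρ0) ^ 2 := by nlinarith
    rw [Real.le_log_iff_exp_le (by positivity), le_div_iff₀ h6]
    calc Real.exp 1 * (1 - (max ‖z0‖ ρ0) ^ 2) ≤ Real.exp 1 * Real.exp (-1) := by
          gcongr
          linarith
      _ = 1 := by rw [← Real.exp_add]; norm_num
  set L := Real.log (1 / (1 - ρ ^ 2)) with hLdef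
  have hρ2 : 0 < 1 - ρ ^ 2 := by nlinarith
  have hz2 := one_sub_pos hz
  have hzρ : 1 - ρ ^ 2 ≤ 1 - ‖z0‖ ^ 2 := by
    have := norm_nonneg z0
    nlinarith
  -- logs
  have hlog4 : Real.log 4 ≤ Real.log 64 := Real.log_le_log (by norm_num) (by norm_num)
  have hlogs : Real.log (4 / (1 - ρ ^ 2)) = Real.log 4 + L := by
    rw [hLdef, ← Real.log_mul (by norm_num) (by positivity)]
    congr 1
    ring
  have hR0 : hypR z0 ≤ Real.log 4 + L := by
    rw [← hlogs]
    exact hypR_le hz hρ2 hzρ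
  have hR1 : ∀ θ : ℝ, hypR (mob z0 (circleMap 0 ρ θ)) ≤ Real.log 16 + 2 * L := by
    intro θ
    have hn := circleMap_norm ρ θ h0
    have h2 := mob_bound hz h1 hn
    have h3 : (1 - ρ ^ 2) * (1 - ρ ^ 2) / 4 ≤ 1 - ‖mob z0 (circleMap 0 ρ θ)‖ ^ 2 := by
      refine le_trans ?_ h2
      gcongr
    have h4 := hypR_le (norm_mob_lt hz (by rwa [hn])) (by positivity) h3
    refine h4.trans (le_of_eq ?_)
    rw [hLdef]
    have e : 4 / ((1 - ρ ^ 2) * (1 - ρ ^ 2) / 4) = 16 * (1 / (1 - ρ ^ 2)) ^ 2 := by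
      field_simp
      norm_num
    rw [e, Real.log_mul (by norm_num) (by positivity), Real.log_pow]
    norm_num
  have hmean := mean_fT hν hz h0 h1
  have hpi := Real.pi_pos
  have hb1 : ‖∫ θ in (0 : ℝ)..(2 * Real.pi), fT ν (mob z0 (circleMap 0 ρ θ))‖ ≤
      (C * (1 + (Real.log 16 + 2 * L))) * |2 * Real.pi - 0| := by
    refine intervalIntegral.norm_integral_le_of_norm_le_const fun θ _ => ?_
    refine (hf _ (norm_mob_lt hz (by rwa [circleMap_norm _ _ h0]))).trans ?_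
    have := hR1 θ
    gcongr
  rw [sub_zero, abs_of_pos (by positivity), hmean] at hb1
  have hb2 : ‖fT ν z0 + hT ν z0 * (L : ℂ)‖ ≤ C * (1 + (Real.log 16 + 2 * L)) := by
    rw [norm_mul] at hb1
    have e : ‖(2 * Real.pi : ℂ)‖ = 2 * Real.pi := by
      rw [norm_mul, Complex.norm_real, Real.norm_of_nonneg hpi.le]
      norm_num
    rw [e, mul_comm] at hb1
    exact le_of_mul_le_mul_right hb1 (by positivity)
  have hb3 : ‖hT ν z0‖ * L ≤ C * (1 + (Real.log 16 + 2 * L)) + C * (1 + (Real.log 4 + L)) := by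
    have h2 : ‖hT ν z0 * (L : ℂ)‖ = ‖hT ν z0‖ * L := by
      rw [norm_mul, Complex.norm_real, Real.norm_of_nonneg (by linarith)]
    rw [← h2]
    calc ‖hT ν z0 * (L : ℂ)‖ = ‖(fT ν z0 + hT ν z0 * (L : ℂ)) - fT ν z0‖ := by
          congr 1; ring
      _ ≤ ‖fT ν z0 + hT ν z0 * (L : ℂ)‖ + ‖fT ν z0‖ := norm_sub_le _ _
      _ ≤ _ := by
          refine add_le_add hb2 ((hf z0 hz).trans ?_)
          gcongr
  have hlog64 : Real.log 16 + Real.log 4 = Real.log 64 := by
    rw [← Real.log_mul (by norm_num) (by norm_num)]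
    norm_num
  have h64 : 0 ≤ Real.log 64 := Real.log_nonneg (by norm_num)
  have hb4 : ‖hT ν z0‖ * L ≤ (C * (5 + Real.log 64)) * L := by
    refine hb3.trans ?_
    have : C * (1 + (Real.log 16 + 2 * L)) + C * (1 + (Real.log 4 + L)) =
        C * (2 + Real.log 64 + 3 * L) := by rw [← hlog64]; ring
    rw [this, mul_assoc]
    apply mul_le_mul_of_nonneg_left _ hC
    nlinarith
  exact le_of_mul_le_mul_right hb4 (by linarith)

end Pool.Agent.R249.Bi
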